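import Mathlib
import Pool.Agent.Lib.MP_fd6bc6_al.Mlt

set_option autoImplicit false
set_option linter.unusedSectionVars false

open Topology Uniformity

namespace Pool.Agent.MoufangHaar

section alg

variable {L : Type*} [MLoop L]

theorem TM.inverse {g : L → L} (hg : TM g) :
    ∃ k : L → L, TM k ∧ (∀ x, k (g x) = x) ∧ ∀ x, g (k x) = x := by
  induction hg with
  | id => exact ⟨_, TM.id, fun _ => rfl, fun _ => rfl⟩
  | @left a g0 _ ih =>
    obtain ⟨k, hk, h1, h2⟩ := ih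
    refine ⟨_, TM.comp hk (TM.left a⁻¹ TM.id), fun x => ?_, fun x => ?_⟩
    · change k (a⁻¹ * (a * g0 x)) = x
      rw [MLoop.inv_mul_left, h1]
    · change a * g0 (k (a⁻¹ * x)) = x
      rw [h2, MLoop.mul_inv_left]
  | @right a g0 _ ih =>
    obtain ⟨k, hk, h1, h2⟩ := ih
    refine ⟨_, TM.comp hk (TM.right a⁻¹ TM.id), fun x => ?_, fun x => ?_⟩
    · change k ((g0 x * a) * a⁻¹) = x
      rw [MLoop.mul_mul_inv, h1]
    · change g0 (k (x * a⁻¹)) * a = x
      rw [h2, MLoop.mul_inv_mul]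

theorem TM.conj_left {g k : L → L} (hk : TM k) (hkg : ∀ x, k (g x) = x) (a b : L) :
    ∃ p q : L, ∀ x, k (a * (b⁻¹ * g x)) = p * (q⁻¹ * x) := by
  obtain ⟨f, h, _, _, H⟩ := hk.third
  refine ⟨f a, f b, fun x => ?_⟩
  have h1 : f b * h (b⁻¹ * g x) = x := by
    rw [← H, MLoop.mul_inv_left, hkg]
  rw [H]
  congr 1
  conv_rhs => rw [← h1]
  rw [MLoop.inv_mul_left]

theorem TM.conj_right {g k : L → L} (hk : TM k) (hkg : ∀ x, k (g x) = x) (a : L) :
    ∃ p q : L, ∀ x, k (g x * a) = (x * p) * q := by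
  obtain ⟨f, h, _, _, H⟩ := hk.third
  refine ⟨(h 1)⁻¹, h a, fun x => ?_⟩
  have h1 : f (g x) * h 1 = x := by
    rw [← H, MLoop.mul_one, hkg]
  rw [H]
  congr 1
  conv_rhs => rw [← h1]
  rw [MLoop.mul_mul_inv]

end alg

/-- Closed congruences. -/
structure CC (L : Type*) [MLoop L] [TopologicalSpace L] where
  r : L → L → Prop
  equiv : Equivalence r
  left : ∀ a x y, r x y → r (a * x) (a * y)
  right : ∀ a x y, r x y → r (x * a) (y * a)
  closed : IsClosed {p : L × L | r p.1 p.2}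

/-- Uniformly equicontinuous sets of maps. -/
def Equi {X : Type*} [UniformSpace X] (S : Set (X → X)) : Prop :=
  ∀ B ∈ 𝓤 X, ∃ A ∈ 𝓤 X, ∀ g ∈ S, ∀ x y, (x, y) ∈ A → (g x, g y) ∈ B

/-- points which are limits of images of infinitely close points -/
def Lim {L : Type*} [UniformSpace L] (F : Filter (L → L)) (u v : L) : Prop :=
  ∀ A ∈ 𝓤 L, ∀ B ∈ 𝓤 L, ∀ᶠ g in F, ∃ x y, (x, y) ∈ A ∧ (u, g x) ∈ B ∧ (v, g y) ∈ B

section unif

theorem equi_param {P X Y : Type*} [UniformSpace P] [CompactSpace P] [UniformSpace X]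
    [CompactSpace X] [UniformSpace Y] (F : P × X → Y) (hF : Continuous F) {B : Set (Y × Y)}
    (hB : B ∈ 𝓤 Y) : ∃ A ∈ 𝓤 X, ∀ p x y, (x, y) ∈ A → (F (p, x), F (p, y)) ∈ B := by
  have hu : UniformContinuous F := CompactSpace.uniformContinuous_of_continuous hF
  have h1 := hu hB
  rw [Filter.mem_map, uniformity_prod_eq_comap_prod, Filter.mem_comap] at h1
  obtain ⟨t, ht, hts⟩ := h1
  rw [Filter.mem_prod_iff] at ht
  obtain ⟨t1, ht1, t2, ht2, h12⟩ := ht
  refine ⟨t2, ht2, fun p x y hxy => ?_⟩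
  have h2 : ((p, x), (p, y)) ∈ (fun q : (P × X) × P × X => ((q.1.1, q.2.1), q.1.2, q.2.2)) ⁻¹' t :=
    h12 ⟨refl_mem_uniformity ht1, hxy⟩
  exact hts h2

variable {L : Type*} [MLoop L] [UniformSpace L] [CompactSpace L] [T2Space L] [TopMLoop L]

theorem equi_D {B : Set (L × L)} (hB : B ∈ 𝓤 L) :
    ∃ A ∈ 𝓤 L, ∀ p q x y : L, (x, y) ∈ A → (p * (q⁻¹ * x), p * (q⁻¹ * y)) ∈ B := by
  obtain ⟨A, hA, H⟩ := equi_param (P := L × L) (X := L)
    (fun z : (L × L) × L => z.1.1 * (z.1.2⁻¹ * z.2))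
    (TopMLoop.cmul (continuous_fst.comp continuous_fst)
      (TopMLoop.cmul (TopMLoop.cinv (continuous_snd.comp continuous_fst)) continuous_snd)) hB
  exact ⟨A, hA, fun p q x y h => H (p, q) x y h⟩

theorem equi_DR {B : Set (L × L)} (hB : B ∈ 𝓤 L) :
    ∃ A ∈ 𝓤 L, ∀ p q x y : L, (x, y) ∈ A → ((x * p) * q, (y * p) * q) ∈ B := by
  obtain ⟨A, hA, H⟩ := equi_param (P := L × L) (X := L)
    (fun z : (L × L) × L => (z.2 * z.1.1) * z.1.2)
    (TopMLoop.cmul (TopMLoop.cmul continuous_snd (continuous_fst.comp continuous_fst))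
      (continuous_snd.comp continuous_fst)) hB
  exact ⟨A, hA, fun p q x y h => H (p, q) x y h⟩

theorem small_D {B : Set (L × L)} (hB : B ∈ 𝓤 L) :
    ∃ A ∈ 𝓤 L, ∀ a b : L, (a, b) ∈ A → ∀ x, (a * (b⁻¹ * x), x) ∈ B := by
  obtain ⟨A, hA, H⟩ := equi_param (P := L × L) (X := L)
    (fun z : (L × L) × L => z.2 * (z.1.1⁻¹ * z.1.2))
    (TopMLoop.cmul continuous_snd
      (TopMLoop.cmul (TopMLoop.cinv (continuous_fst.comp continuous_fst))
        (continuous_snd.comp continuous_fst))) hB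
  refine ⟨A, hA, fun a b h x => ?_⟩
  have h1 := H (b, x) a b h
  simp only [MLoop.mul_inv_left] at h1
  exact h1

/-- the same with the inverse on the left -/
theorem small_D' {B : Set (L × L)} (hB : B ∈ 𝓤 L) :
    ∃ A ∈ 𝓤 L, ∀ a b : L, (a, b) ∈ A → ∀ x, (x, a⁻¹ * (b * x)) ∈ B := by
  obtain ⟨A, hA, H⟩ := equi_param (P := L × L) (X := L)
    (fun z : (L × L) × L => z.1.1⁻¹ * (z.2 * z.1.2))
    (TopMLoop.cmul (TopMLoop.cinv (continuous_fst.comp continuous_fst))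
      (TopMLoop.cmul continuous_snd (continuous_snd.comp continuous_fst))) hB
  refine ⟨A, hA, fun a b h x => ?_⟩
  have h1 := H (a, x) a b h
  simp only [MLoop.inv_mul_left] at h1
  exact h1

end unif

end Pool.Agent.MoufangHaar
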