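import Mathlib
import Pool.Agent.Lib.MP_fd6bc6_al.NS.A1
import Pool.Agent.Lib.MP_fd6bc6_al.Quot

set_option autoImplicit false
set_option linter.unusedSectionVars false

open Topology

namespace Pool.Agent.MoufangHaar

namespace CC

section

variable {L : Type*} [MLoop L] [TopologicalSpace L]

theorem ext' {c d : CC L} (h : ∀ x y, c.r x y ↔ d.r x y) : c = d := by
  obtain ⟨r, _, _, _, _⟩ := c
  obtain ⟨r', _, _, _, _⟩ := d
  have : r = r' := funext fun x => funext fun y => propext (h x y)
  subst this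
  rfl

variable (c : CC L)

/-- the setoid of the congruence -/
def setoid : Setoid L := ⟨c.r, c.equiv⟩

/-- the quotient loop -/
def Q : Type _ := Quotient c.setoid

instance : TopologicalSpace c.Q := inferInstanceAs (TopologicalSpace (Quotient c.setoid))

/-- the quotient map -/
def pr (x : L) : c.Q := Quotient.mk c.setoid x

theorem pr_surj : Function.Surjective c.pr := Quotient.mk_surjective

theorem pr_eq {x y : L} : c.pr x = c.pr y ↔ c.r x y := Quotient.eq (r := c.setoid)

theorem pr_cont : Continuous c.pr := continuous_quot_mk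

theorem mul {x x' y y' : L} (h : c.r x x') (h' : c.r y y') : c.r (x * y) (x' * y') :=
  c.equiv.trans (c.right y _ _ h) (c.left x' _ _ h')

theorem inv {x y : L} (h : c.r x y) : c.r x⁻¹ y⁻¹ := by
  have h1 := c.right y⁻¹ _ _ (c.left x⁻¹ _ _ h)
  rw [MLoop.inv_mul_self, MLoop.one_mul, MLoop.mul_mul_inv] at h1
  exact c.equiv.symm h1

instance : MLoop c.Q where
  mul := Quotient.map₂ (fun a b => a * b) (fun _ _ ha _ _ hb => c.mul ha hb)
  one := c.pr 1
  inv := Quotient.map (fun a => a⁻¹) (fun _ _ ha => c.inv ha)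
  one_mul' x := by
    obtain ⟨x, rfl⟩ := c.pr_surj x
    exact congrArg c.pr (MLoop.one_mul x)
  mul_one' x := by
    obtain ⟨x, rfl⟩ := c.pr_surj x
    exact congrArg c.pr (MLoop.mul_one x)
  inv_mul_cancel_left' x y := by
    obtain ⟨x, rfl⟩ := c.pr_surj x
    obtain ⟨y, rfl⟩ := c.pr_surj y
    exact congrArg c.pr (MLoop.inv_mul_left x y)
  mul_inv_cancel_left' x y := by
    obtain ⟨x, rfl⟩ := c.pr_surj x
    obtain ⟨y, rfl⟩ := c.pr_surj y
    exact congrArg c.pr (MLoop.mul_inv_left x y)
  moufang' x y z := by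
    obtain ⟨x, rfl⟩ := c.pr_surj x
    obtain ⟨y, rfl⟩ := c.pr_surj y
    obtain ⟨z, rfl⟩ := c.pr_surj z
    exact congrArg c.pr (MLoop.moufang x y z)

theorem pr_hom : IsMHom c.pr := ⟨fun _ _ => rfl⟩

theorem pr_one : c.pr 1 = 1 := rfl

theorem isQuotientMap_pr : IsQuotientMap c.pr := isQuotientMap_quot_mk

instance [CompactSpace L] : CompactSpace c.Q := by
  rw [← isCompact_univ_iff, ← c.pr_surj.range_eq]
  exact isCompact_range c.pr_cont

variable [TopMLoop L]

theorem isOpenMap_pr : IsOpenMap c.pr := by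
  intro O hO
  rw [← c.isQuotientMap_pr.isOpen_preimage, isOpen_iff_mem_nhds]
  rintro x ⟨y, hy, hxy⟩
  have h1 : c.r y x := c.pr_eq.mp hxy
  have h2 : Continuous (fun x' : L => (y * x⁻¹) * x') := TopMLoop.continuous_mul_left _
  have h3 : ∀ᶠ x' in 𝓝 x, (y * x⁻¹) * x' ∈ O := by
    refine h2.continuousAt.eventually (hO.mem_nhds ?_)
    simp only [MLoop.mul_inv_mul]
    exact hy
  filter_upwards [h3] with x' hx'
  refine ⟨(y * x⁻¹) * x', hx', c.pr_eq.mpr ?_⟩
  have h4 := c.right x' _ _ (c.right x⁻¹ _ _ h1)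
  rwa [MLoop.mul_inv_self, MLoop.one_mul] at h4

instance : T2Space c.Q := by
  rw [t2_iff_isClosed_diagonal]
  have hs : Function.Surjective (Prod.map c.pr c.pr) := c.pr_surj.prodMap c.pr_surj
  have hq : IsQuotientMap (Prod.map c.pr c.pr) :=
    (c.isOpenMap_pr.prodMap c.isOpenMap_pr).isQuotientMap
      (c.pr_cont.prodMap c.pr_cont) hs
  rw [← hq.isClosed_preimage]
  have : Prod.map c.pr c.pr ⁻¹' Set.diagonal c.Q = {p : L × L | c.r p.1 p.2} := by
    ext p
    exact c.pr_eq
  rw [this]
  exact c.closed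

instance : TopMLoop c.Q where
  cont_mul := by
    have hs : Function.Surjective (Prod.map c.pr c.pr) := c.pr_surj.prodMap c.pr_surj
    have hq : IsQuotientMap (Prod.map c.pr c.pr) :=
      (c.isOpenMap_pr.prodMap c.isOpenMap_pr).isQuotientMap
        (c.pr_cont.prodMap c.pr_cont) hs
    rw [hq.continuous_iff]
    exact c.pr_cont.comp (TopMLoop.cont_mul (L := L))
  cont_inv := by
    rw [c.isQuotientMap_pr.continuous_iff]
    exact c.pr_cont.comp (TopMLoop.cont_inv (L := L))

end

section maps

variable {L M : Type*} [MLoop L] [TopologicalSpace L] [MLoop M] [TopologicalSpace M]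

/-- the pull back of a congruence -/
def comap (φ : L → M) (hφ : IsMHom φ) (hc : Continuous φ) (d : CC M) : CC L where
  r x y := d.r (φ x) (φ y)
  equiv := ⟨fun _ => d.equiv.refl _, fun h => d.equiv.symm h, fun h h' => d.equiv.trans h h'⟩
  left a x y h := by
    rw [hφ.map_mul, hφ.map_mul]
    exact d.left _ _ _ h
  right a x y h := by
    rw [hφ.map_mul, hφ.map_mul]
    exact d.right _ _ _ h
  closed := d.closed.preimage ((hc.comp continuous_fst).prodMk (hc.comp continuous_snd))

/-- the trivial congruence -/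
def bot (L : Type*) [MLoop L] [TopologicalSpace L] [T2Space L] : CC L where
  r x y := x = y
  equiv := ⟨fun _ => rfl, fun h => h.symm, fun h h' => h.trans h'⟩
  left a x y h := by rw [h]
  right a x y h := by rw [h]
  closed := isClosed_eq continuous_fst continuous_snd

/-- the kernel congruence -/
def ker [T2Space M] (φ : L → M) (hφ : IsMHom φ) (hc : Continuous φ) : CC L :=
  comap φ hφ hc (bot M)

/-- intersections -/
def inf {L : Type*} [MLoop L] [TopologicalSpace L] (S : Set (CC L)) : CC L where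
  r x y := ∀ c ∈ S, c.r x y
  equiv := ⟨fun _ c _ => c.equiv.refl _, fun h c hc => c.equiv.symm (h c hc),
    fun h h' c hc => c.equiv.trans (h c hc) (h' c hc)⟩
  left a x y h c hc := c.left a x y (h c hc)
  right a x y h c hc := c.right a x y (h c hc)
  closed := by
    have : {p : L × L | ∀ c ∈ S, c.r p.1 p.2} = ⋂ c ∈ S, {p : L × L | CC.r c p.1 p.2} := by
      ext p
      simp only [Set.mem_iInter]
      rfl
    rw [this]
    exact isClosed_biInter fun c _ => c.closed

/-- the map between quotients -/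
def map {L : Type*} [MLoop L] [TopologicalSpace L] {c d : CC L} (h : ∀ x y, c.r x y → d.r x y) :
    c.Q → d.Q := Quotient.map id fun x y hxy => h x y hxy

theorem map_pr {L : Type*} [MLoop L] [TopologicalSpace L] {c d : CC L}
    (h : ∀ x y, c.r x y → d.r x y) (x : L) : map h (c.pr x) = d.pr x := rfl

theorem map_hom {L : Type*} [MLoop L] [TopologicalSpace L] {c d : CC L}
    (h : ∀ x y, c.r x y → d.r x y) : IsMHom (map h) := by
  refine ⟨fun x y => ?_⟩
  obtain ⟨x, rfl⟩ := c.pr_surj x
  obtain ⟨y, rfl⟩ := c.pr_surj y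
  rfl

theorem map_cont {L : Type*} [MLoop L] [TopologicalSpace L] {c d : CC L}
    (h : ∀ x y, c.r x y → d.r x y) : Continuous (map h) := by
  rw [c.isQuotientMap_pr.continuous_iff]
  exact d.pr_cont

theorem map_surj {L : Type*} [MLoop L] [TopologicalSpace L] {c d : CC L}
    (h : ∀ x y, c.r x y → d.r x y) : Function.Surjective (map h) := by
  intro y
  obtain ⟨y, rfl⟩ := d.pr_surj y
  exact ⟨c.pr y, rfl⟩

end maps

end CC

end Pool.Agent.MoufangHaar
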