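import Mathlib
import Pool.Agent.Lib.MP_fd6bc6_al.Mg.G015

set_option autoImplicit false
set_option linter.unusedSectionVars false

open Topology Uniformity MeasureTheory

namespace Pool.Agent.MoufangHaar

namespace CC

variable {L : Type*} [MLoop L] [TopologicalSpace L] [CompactSpace L] [T2Space L] [TopMLoop L]

/-- between two congruences whose factor has no invariant mean there is a third one -/
theorem exists_dense {c d : CC L} (h : c ≤ d) (hn : ¬ FH c d) :
    ∃ e, c ≤ e ∧ e ≤ d ∧ ¬ FH c e ∧ ¬ FH e d := by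
  by_contra hcon
  have hcon' : ∀ e, c ≤ e → e ≤ d → ¬ FH c e → FH e d := fun e h1 h2 h3 => by
    by_contra h4
    exact hcon ⟨e, h1, h2, h3, h4⟩
  let r : {e : CC L // c ≤ e ∧ e ≤ d} → {e : CC L // c ≤ e ∧ e ≤ d} → Prop := fun a b => a.1 ≤ b.1
  have hM : IsMaxChain r (maxChain r) := maxChain_spec
  set M := maxChain r
  have htot : ∀ a ∈ M, ∀ b ∈ M, a.1 ≤ b.1 ∨ b.1 ≤ a.1 := by
    intro a ha b hb
    by_cases hab : a = b
    · left
      rw [hab]
    · exact hM.1 ha hb hab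
  -- comparable elements belong to the maximal chain
  have hmem : ∀ x : {e : CC L // c ≤ e ∧ e ≤ d}, (∀ b ∈ M, x.1 ≤ b.1 ∨ b.1 ≤ x.1) → x ∈ M := by
    intro x hx
    have h1 : IsChain r (insert x M) := hM.1.insert fun b hb _ => hx b hb
    have h2 := hM.2 h1 (Set.subset_insert x M)
    rw [h2]
    exact Set.mem_insert x M
  let S : Set (CC L) := {e | ∃ he : c ≤ e ∧ e ≤ d, ⟨e, he⟩ ∈ M ∧ FH c e}
  let T : Set (CC L) := {e | ∃ he : c ≤ e ∧ e ≤ d, ⟨e, he⟩ ∈ M ∧ ¬ FH c e}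
  have hcS : c ∈ S := ⟨⟨le_rfl, h⟩, hmem ⟨c, le_rfl, h⟩ fun b _ => Or.inl b.2.1, FH.refl c⟩
  have hdT : d ∈ T := ⟨⟨h, le_rfl⟩, hmem ⟨d, h, le_rfl⟩ fun b _ => Or.inr b.2.2, hn⟩
  have hSne : S.Nonempty := ⟨c, hcS⟩
  have hTne : T.Nonempty := ⟨d, hdT⟩
  have hSc : IsChain (· ≤ ·) S := by
    rintro a ⟨ha, ha', _⟩ b ⟨hb, hb', _⟩ _
    exact htot ⟨a, ha⟩ ha' ⟨b, hb⟩ hb'
  have hTc : IsChain (· ≤ ·) T := by
    rintro a ⟨ha, ha', _⟩ b ⟨hb, hb', _⟩ _
    exact htot ⟨a, ha⟩ ha' ⟨b, hb⟩ hb'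
  have hST : ∀ s ∈ S, ∀ t ∈ T, s ≤ t := by
    rintro s ⟨hs, hsM, hsF⟩ t ⟨ht, htM, htF⟩
    rcases htot ⟨s, hs⟩ hsM ⟨t, ht⟩ htM with h1 | h1
    · exact h1
    · exact absurd (hsF.left ht.1 h1) htF
  set R := csup S hSne hSc with hRdef
  set O := CC.inf T with hOdef
  have hFR : FH c R := FH.csup hSne hSc fun s hs => hs.2.2
  have hFO : FH O d := FH.inf hTne hTc fun t ht => hcon' t ht.1.1 ht.1.2 ht.2.2
  have hRO : R ≤ O := csup_le hSne hSc fun s hs => le_inf' fun t ht => hST s hs t ht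
  have hcR : c ≤ R := hFR.1
  have hOd : O ≤ d := hFO.1
  have hch : ∀ e, R ≤ e → e ≤ O → e = R ∨ e = O := by
    intro e he1 he2
    have hce : c ≤ e := hcR.trans he1
    have hed : e ≤ d := he2.trans hOd
    have h1 : (⟨e, hce, hed⟩ : {e : CC L // c ≤ e ∧ e ≤ d}) ∈ M := by
      refine hmem _ fun b hb => ?_
      by_cases hbF : FH c b.1
      · right
        exact (le_csup hSne hSc ⟨b.2, hb, hbF⟩).trans he1
      · left
        exact he2.trans (inf_le' ⟨b.2, hb, hbF⟩)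
    by_cases heF : FH c e
    · left
      exact le_antisymm (le_csup hSne hSc ⟨⟨hce, hed⟩, h1, heF⟩) he1
    · right
      exact le_antisymm he2 (inf_le' ⟨⟨hce, hed⟩, h1, heF⟩)
  exact hn ((hFR.trans (FH.chief hRO hch)).trans hFO)

/-- a rational chain of congruences, all of whose factors have no invariant mean -/
theorem exists_rat_chain {c d : CC L} (h : c ≤ d) (hn : ¬ FH c d) :
    ∃ f : ℚ → CC L, (∀ q, c ≤ f q ∧ f q ≤ d) ∧ ∀ p q, p < q → f p ≤ f q ∧ ¬ FH (f p) (f q) := by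
  classical
  let r : {e : CC L // c ≤ e ∧ e ≤ d} → {e : CC L // c ≤ e ∧ e ≤ d} → Prop :=
    fun a b => a.1 ≤ b.1 ∧ ¬ FH a.1 b.1
  have rtrans : ∀ a b e, r a b → r b e → r a e := fun a b e h1 h2 =>
    ⟨h1.1.trans h2.1, fun h3 => h1.2 (h3.left h1.1 h2.1)⟩
  have h0 : IsChain r {⟨c, le_rfl, h⟩, ⟨d, h, le_rfl⟩} := by
    intro a ha b hb hab
    rcases ha with rfl | ha <;> rcases hb with rfl | hb
    · exact absurd rfl hab
    · rw [Set.mem_singleton_iff.mp hb]
      exact Or.inl ⟨h, hn⟩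
    · rw [Set.mem_singleton_iff.mp ha]
      exact Or.inr ⟨h, hn⟩
    · exact absurd ((Set.mem_singleton_iff.mp ha).trans (Set.mem_singleton_iff.mp hb).symm) hab
  obtain ⟨M, hM, h0M⟩ := h0.exists_maxChain
  have htri : ∀ a ∈ M, ∀ b ∈ M, a = b ∨ r a b ∨ r b a := fun a ha b hb => by
    by_cases hab : a = b
    · exact Or.inl hab
    · exact Or.inr (hM.1 ha hb hab)
  let : LinearOrder M :=
    { le := fun a b => a.1.1 ≤ b.1.1
      le_refl := fun a => le_refl a.1.1
      le_trans := fun a b e h1 h2 => le_trans (a := a.1.1) h1 h2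
      le_antisymm := fun a b h1 h2 => Subtype.ext (Subtype.ext (le_antisymm (a := a.1.1) h1 h2))
      le_total := fun a b => by
        rcases htri a.1 a.2 b.1 b.2 with h1 | h1 | h1
        · left
          change a.1.1 ≤ b.1.1
          rw [h1]
        · exact Or.inl h1.1
        · exact Or.inr h1.1
      toDecidableLE := Classical.decRel _ }
  have hlt : ∀ a b : M, a < b → r a.1 b.1 := by
    intro a b hab
    rcases htri a.1 a.2 b.1 b.2 with h1 | h1 | h1
    · exact absurd (Subtype.ext h1) hab.ne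
    · exact h1
    · exact absurd (show b ≤ a from h1.1) (not_le_of_gt hab)
  have hlt' : ∀ a b : M, r a.1 b.1 → a < b := by
    intro a b hab
    refine lt_of_le_of_ne (show a ≤ b from hab.1) fun h1 => ?_
    apply hab.2
    rw [h1]
    exact FH.refl _
  have hdense : DenselyOrdered M := by
    refine ⟨fun a b hab => ?_⟩
    obtain ⟨e, h1, h2, h3, h4⟩ := exists_dense (hlt a b hab).1 (hlt a b hab).2
    by_contra hcon
    have hno : ∀ z : M, a < z → z < b → False := fun z h5 h6 => hcon ⟨z, h5, h6⟩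
    let e' : {e : CC L // c ≤ e ∧ e ≤ d} := ⟨e, a.1.2.1.trans h1, h2.trans b.1.2.2⟩
    have hae : r a.1 e' := ⟨h1, h3⟩
    have heb : r e' b.1 := ⟨h2, h4⟩
    have h5 : IsChain r (insert e' M) := hM.1.insert fun z hz _ => by
      rcases lt_trichotomy (⟨z, hz⟩ : M) a with h6 | h6 | h6
      · right
        exact rtrans _ _ _ (hlt _ _ h6) hae
      · right
        have h7 : z = a.1 := congrArg Subtype.val h6
        rw [h7]
        exact hae
      · rcases lt_trichotomy (⟨z, hz⟩ : M) b with h8 | h8 | h8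
        · exact absurd h8 (hno _ h6)
        · left
          have h7 : z = b.1 := congrArg Subtype.val h8
          rw [h7]
          exact heb
        · left
          exact rtrans _ _ _ heb (hlt _ _ h8)
    have h6 := hM.2 h5 (Set.subset_insert e' M)
    have h7 : e' ∈ M := by
      rw [h6]
      exact Set.mem_insert e' M
    exact hno ⟨e', h7⟩ (hlt' _ _ hae) (hlt' _ _ heb)
  have hnt : Nontrivial M := by
    refine ⟨⟨⟨c, le_rfl, h⟩, h0M (Or.inl rfl)⟩, ⟨⟨d, h, le_rfl⟩, h0M (Or.inr rfl)⟩, fun h1 => ?_⟩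
    have h2 : c = d := congrArg (fun z : M => z.1.1) h1
    apply hn
    rw [h2]
    exact FH.refl d
  obtain ⟨f⟩ := Order.embedding_from_countable_to_dense ℚ M
  exact ⟨fun q => (f q).1.1, fun q => (f q).1.2, fun p q hpq => hlt _ _ (f.lt_iff_lt.mpr hpq)⟩

end CC

end Pool.Agent.MoufangHaar
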