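import Mathlib
import Pool.Agent.Lib.MP_fd6bc6_al.NS.G3

set_option autoImplicit false
set_option linter.unusedSectionVars false

open Topology Uniformity MeasureTheory

namespace Pool.Agent.MoufangHaar

theorem isClosed_ccIn {X : Type*} [TopologicalSpace X] {F : Set X} (hF : IsClosed F) (x : X) :
    IsClosed (connectedComponentIn F x) := by
  by_cases hx : x ∈ F
  · refine isClosed_of_closure_subset ?_
    exact isPreconnected_connectedComponentIn.closure.subset_connectedComponentIn
      (subset_closure (mem_connectedComponentIn hx))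
      (closure_minimal (connectedComponentIn_subset F x) hF)
  · rw [connectedComponentIn_eq_empty hx]
    exact isClosed_empty

namespace CC

variable {L : Type*} [MLoop L] [TopologicalSpace L] [CompactSpace L] [T2Space L] [TopMLoop L]

/-- the coset -/
def coset (c : CC L) (x : L) : Set L := {z | c.r z x}

theorem coset_eq {c : CC L} {x y : L} (h : c.r x y) : c.coset x = c.coset y := by
  ext z
  exact ⟨fun h' => c.equiv.trans h' h, fun h' => c.equiv.trans h' (c.equiv.symm h)⟩

theorem self_mem (c : CC L) (x : L) : x ∈ c.coset x := c.equiv.refl x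

theorem coset_closed (c : CC L) (x : L) : IsClosed (c.coset x) :=
  c.closed.preimage (Continuous.prodMk_left x)

/-- the components of the cosets -/
def cr (c : CC L) (x y : L) : Prop := y ∈ connectedComponentIn (c.coset x) x

theorem cr.r {c : CC L} {x y : L} (h : cr c x y) : c.r y x :=
  (connectedComponentIn_subset (c.coset x) x h : y ∈ c.coset x)

theorem cr.symm {c : CC L} {x y : L} (h : cr c x y) : cr c y x := by
  have h1 : c.r y x := h.r
  unfold cr at h ⊢
  rw [coset_eq h1, ← connectedComponentIn_eq h]
  exact mem_connectedComponentIn (c.self_mem x)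

theorem cr.trans {c : CC L} {x y z : L} (h : cr c x y) (h' : cr c y z) : cr c x z := by
  have h1 : c.r y x := h.r
  unfold cr at h h' ⊢
  rw [coset_eq h1, ← connectedComponentIn_eq h] at h'
  exact h'

theorem cr.map {c : CC L} {x y : L} (h : cr c x y) (F : L → L) (hF : Continuous F)
    (hFc : ∀ u v, c.r u v → c.r (F u) (F v)) : cr c (F x) (F y) := by
  refine (isPreconnected_connectedComponentIn.image F hF.continuousOn).subset_connectedComponentIn
    ⟨x, mem_connectedComponentIn (c.self_mem x), rfl⟩ ?_ ⟨y, h, rfl⟩
  rintro _ ⟨z, hz, rfl⟩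
  exact hFc _ _ (connectedComponentIn_subset (c.coset x) x hz : z ∈ c.coset x)

theorem cr_iff {c : CC L} {x y : L} :
    cr c x y ↔ x * y⁻¹ ∈ connectedComponentIn (c.coset 1) 1 := by
  constructor
  · intro h
    have h1 := h.symm.map (fun z => z * y⁻¹) (TopMLoop.continuous_mul_right _)
      (fun u v huv => c.right _ _ _ huv)
    simp only [MLoop.mul_inv_self] at h1
    exact h1
  · intro h
    have h1 : cr c 1 (x * y⁻¹) := h
    have h2 := h1.map (fun z => z * y) (TopMLoop.continuous_mul_right _)
      (fun u v huv => c.right _ _ _ huv)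
    simp only [MLoop.one_mul, MLoop.mul_inv_mul] at h2
    exact h2.symm

/-- the congruence of components of cosets -/
def comp (c : CC L) : CC L where
  r := cr c
  equiv := ⟨fun x => mem_connectedComponentIn (c.self_mem x), fun h => h.symm,
    fun h h' => h.trans h'⟩
  left a _ _ h := h.map (fun z => a * z) (TopMLoop.continuous_mul_left a)
    fun u v huv => c.left a _ _ huv
  right a _ _ h := h.map (fun z => z * a) (TopMLoop.continuous_mul_right a)
    fun u v huv => c.right a _ _ huv
  closed := by
    have h1 : {p : L × L | cr c p.1 p.2} =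
        (fun p : L × L => p.1 * p.2⁻¹) ⁻¹' connectedComponentIn (c.coset 1) 1 := by
      ext p
      exact cr_iff
    rw [h1]
    exact (isClosed_ccIn (c.coset_closed 1) 1).preimage
      (TopMLoop.cmul continuous_fst (TopMLoop.cinv continuous_snd))

theorem comp_le (c : CC L) : comp c ≤ c := fun x y h =>
  c.equiv.symm (cr.r h)

/-- the factor is totally disconnected -/
theorem FH.comp (c : CC L) : FH (CC.comp c) c := by
  refine ⟨comp_le c, ?_⟩
  have htd : TotallyDisconnectedSpace (KK (comp_le c)) := by
    rw [totallyDisconnectedSpace_iff_connectedComponent_singleton]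
    intro q
    let f : c.coset 1 → KK (comp_le c) := fun x => kk (comp_le c) x.1 x.2
    have hf : Continuous f := ((CC.comp c).pr_cont.comp continuous_subtype_val).subtype_mk _
    have hfs : Function.Surjective f := fun q => by
      obtain ⟨x, hx, rfl⟩ := exists_kk _ q
      exact ⟨⟨x, hx⟩, rfl⟩
    have hfe : ∀ x y, f x = f y ↔ cr c x.1 y.1 := fun x y =>
      ⟨fun h => (CC.comp c).pr_eq.mp (congrArg Subtype.val h),
        fun h => Subtype.ext ((CC.comp c).pr_eq.mpr h)⟩
    have hcomp : CompactSpace (c.coset 1) :=
      isCompact_iff_compactSpace.mp (c.coset_closed 1).isCompact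
    have hq : IsQuotientMap f := hf.isClosedMap.isQuotientMap hf hfs
    -- fibres
    have hfib : ∀ x : c.coset 1, Subtype.val '' (f ⁻¹' {f x}) =
        connectedComponentIn (c.coset 1) x.1 := by
      intro x
      have hx : c.r x.1 1 := x.2
      ext y
      constructor
      · rintro ⟨y, hy, rfl⟩
        have h1 := ((hfe y x).mp hy).symm
        unfold cr at h1
        rwa [coset_eq hx] at h1
      · intro hy
        have hy1 : y ∈ c.coset 1 := connectedComponentIn_subset (c.coset 1) x.1 hy
        refine ⟨⟨y, hy1⟩, ?_, rfl⟩
        refine (hfe ⟨y, hy1⟩ x).mpr (cr.symm ?_)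
        unfold cr
        rw [coset_eq hx]
        exact hy
    have hfc : ∀ t, IsConnected (f ⁻¹' {t}) := by
      intro t
      obtain ⟨x, rfl⟩ := hfs t
      have h1 : IsConnected (Subtype.val '' (f ⁻¹' {f x})) := by
        rw [hfib]
        exact isConnected_connectedComponentIn_iff.mpr x.2
      refine ⟨⟨x, rfl⟩, ?_⟩
      exact IsInducing.subtypeVal.isPreconnected_image.mp h1.isPreconnected
    have h2 : IsConnected (f ⁻¹' connectedComponent q) :=
      preimage_connectedComponent_connected hfc hq.isCoinducing q
    obtain ⟨x, rfl⟩ := hfs q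
    refine Set.eq_singleton_iff_unique_mem.mpr ⟨mem_connectedComponent, fun q' hq' => ?_⟩
    obtain ⟨y, rfl⟩ := hfs q'
    have h3 : Subtype.val '' (f ⁻¹' connectedComponent (f x)) ⊆
        connectedComponentIn (c.coset 1) x.1 := by
      refine (h2.isPreconnected.image Subtype.val
        continuous_subtype_val.continuousOn).subset_connectedComponentIn
        ⟨x, mem_connectedComponent, rfl⟩ ?_
      rintro _ ⟨z, _, rfl⟩
      exact z.2
    have h4 := h3 ⟨y, hq', rfl⟩
    rw [← hfib x] at h4
    obtain ⟨y', hy', hyy⟩ := h4
    rw [← Subtype.ext hyy]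
    exact hy'
  let : MeasurableSpace (KK (comp_le c)) := borel _
  have : BorelSpace (KK (comp_le c)) := ⟨rfl⟩
  exact hasInt_iff_hasMean.mp hasInt_of_td

/-- quotients and factors -/
theorem hasMean_of_FH {c d : CC L} (h : FH c d) (hd : HasMean d.Q) : HasMean c.Q :=
  (hasMean_ext (map h.1) (map_hom h.1) (map_cont h.1) (map_surj h.1)).mpr ⟨h.2, hd⟩

theorem comp_res : comp (res L) = res L :=
  le_antisymm (comp_le _) fun x y h => res_le (hasMean_of_FH (FH.comp _) hasMean_res) x y h

theorem res_connected : IsConnected {x : L | (res L).r x 1} := by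
  have h1 : {x : L | (res L).r x 1} = connectedComponentIn ((res L).coset 1) 1 := by
    ext x
    constructor
    · intro h
      have h2 : (comp (res L)).r 1 x := by
        rw [comp_res]
        exact (res L).equiv.symm h
      exact h2
    · intro h
      exact (connectedComponentIn_subset ((res L).coset 1) 1 h : x ∈ (res L).coset 1)
  rw [h1]
  exact isConnected_connectedComponentIn_iff.mpr ((res L).self_mem 1)

theorem not_FH_res {c : CC L} (h : ¬ (res L) ≤ c) : ¬ FH c (res L) := fun h1 =>
  h fun x y hxy => res_le (hasMean_of_FH h1 hasMean_res) x y hxy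

end CC

end Pool.Agent.MoufangHaar
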