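import Mathlib
import Pool.Agent.Lib.MP_fd6bc6_al.NS.H1

set_option autoImplicit false
set_option linter.unusedSectionVars false

open Topology Uniformity MeasureTheory

universe u v

namespace Pool.Agent.MoufangHaar

namespace CC

/-- the closed congruence of a closed normal subloop -/
theorem exists_of_set {L : Type*} [MLoop L] [TopologicalSpace L] [TopMLoop L] (K : Set L)
    (hcl : IsClosed K) (h1 : (1 : L) ∈ K) (hmul : ∀ a ∈ K, ∀ b ∈ K, a * b ∈ K)
    (hinv : ∀ a ∈ K, a⁻¹ ∈ K) (hconj : ∀ n ∈ K, ∀ x : L, (x * n) * x⁻¹ ∈ K)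
    (hR : ∀ n ∈ K, ∀ x y : L, ((n * x) * y) * (x * y)⁻¹ ∈ K) :
    ∃ c : CC L, ∀ x, c.r x 1 ↔ x ∈ K := by
  have hright : ∀ a x y : L, x * y⁻¹ ∈ K → (x * a) * (y * a)⁻¹ ∈ K := by
    intro a x y h
    have h2 := hR _ h y a
    rwa [MLoop.mul_inv_mul] at h2
  have htrans : ∀ x y z : L, x * y⁻¹ ∈ K → y * z⁻¹ ∈ K → x * z⁻¹ ∈ K := by
    intro x y z h h'
    have h2 := hR _ h y z⁻¹
    rw [MLoop.mul_inv_mul] at h2
    have h3 := hmul _ h2 _ h'
    rwa [MLoop.mul_inv_mul] at h3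
  refine ⟨⟨fun x y => x * y⁻¹ ∈ K, ⟨fun x => ?_, fun {x y} h => ?_, fun {x y z} => htrans x y z⟩,
    fun a x y h => ?_, fun a x y h => hright a x y h, ?_⟩, fun x => ?_⟩
  · rw [MLoop.mul_inv_self]
    exact h1
  · have h2 := hinv _ h
    rwa [MLoop.mul_inv_rev, MLoop.inv_inv] at h2
  · have hk := hconj _ h a
    have e1 : ((a * (x * y⁻¹)) * a⁻¹) * a = a * (x * y⁻¹) := MLoop.mul_inv_mul _ _
    have h3 : (a * (x * y⁻¹)) * a⁻¹ ∈ K := hk
    have h4 : ((a * (x * y⁻¹)) * a) * (a * a)⁻¹ ∈ K := hright a _ _ h3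
    have h5 := hright (a⁻¹ * y) _ _ h4
    rw [MLoop.autL, MLoop.mul_inv_mul] at h5
    have h6 := MLoop.autL a 1 y
    rw [MLoop.mul_one, MLoop.one_mul] at h6
    rwa [h6] at h5
  · exact hcl.preimage (TopMLoop.cmul continuous_fst (TopMLoop.cinv continuous_snd))
  · have h2 : x * (1 : L)⁻¹ = x := by
      have h4 := MLoop.mul_mul_inv x 1
      rwa [MLoop.mul_one] at h4
    change x * (1 : L)⁻¹ ∈ K ↔ x ∈ K
    rw [h2]

theorem r_iff {L : Type*} [MLoop L] [TopologicalSpace L] (c : CC L) (x y : L) :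
    c.r x y ↔ c.r (x * y⁻¹) 1 := by
  constructor
  · intro h
    have h1 := c.right y⁻¹ _ _ h
    rwa [MLoop.mul_inv_self] at h1
  · intro h
    have h1 := c.right y _ _ h
    rwa [MLoop.mul_inv_mul, MLoop.one_mul] at h1

theorem le_iff {L : Type*} [MLoop L] [TopologicalSpace L] {c d : CC L} :
    c ≤ d ↔ ∀ x, c.r x 1 → d.r x 1 :=
  ⟨fun h x hx => h _ _ hx, fun h x y hxy => (d.r_iff x y).mpr (h _ ((c.r_iff x y).mp hxy))⟩

end CC

section

variable {L : Type u} [TopologicalSpace L]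

/-- The factor `K'/K` carries an invariant probability measure: there is a continuous surjective
homomorphism with kernel `K` onto a compact Hausdorff Moufang loop, and on that loop a probability
measure concentrated on the image of `K'` and invariant under the translations by the elements of
this image. -/
def TopMoufang.FactorHaar (A : TopMoufang L) (K K' : Set L) : Prop :=
  ∃ (Q : Type u) (_ : TopologicalSpace Q) (_ : CompactSpace Q) (_ : T2Space Q)
    (_ : MeasurableSpace Q) (_ : BorelSpace Q) (B : TopMoufang Q) (φ : L → Q),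
    Continuous φ ∧ Function.Surjective φ ∧ (∀ x y, φ (A.mul x y) = B.mul (φ x) (φ y)) ∧
    (∀ x, φ x = B.e ↔ x ∈ K) ∧ ∃ ν : Measure Q, IsProbabilityMeasure ν ∧ ν (φ '' K')ᶜ = 0 ∧
      ∀ a ∈ K', ν.map (fun x => B.mul (φ a) x) = ν ∧ ν.map (fun x => B.mul x (φ a)) = ν

theorem fh_of_factorHaar [CompactSpace L] [T2Space L] (A : TopMoufang L) :
    letI : MLoop L := A.toM
    haveI : TopMLoop L := A.toT
    ∀ c d : CC L, c ≤ d → A.FactorHaar {x | c.r x A.e} {x | d.r x A.e} → CC.FH c d := by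
  let _ : MLoop L := A.toM
  have _ : TopMLoop L := A.toT
  intro c d h hF
  obtain ⟨Q, _, _, _, _, _, B, φ, hc, hs, hmul, hker, ν, hp, h0, hν⟩ := hF
  let _ : MLoop Q := B.toM
  have _ : TopMLoop Q := B.toT
  have hφ : IsMHom φ := ⟨hmul⟩
  have hle : c ≤ d := h
  have hker' : ∀ x, φ x = 1 ↔ c.r x 1 := hker
  have hφc : ∀ x y, φ x = φ y → c.r x y := by
    intro x y hxy
    rw [c.r_iff, ← hker', hφ.map_mul, hφ.map_inv, hxy, MLoop.mul_inv_self]
  let θ : Q → c.Q := fun q => c.pr (Function.surjInv hs q)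
  have hθ : ∀ x, θ (φ x) = c.pr x := fun x =>
    c.pr_eq.mpr (hφc _ _ (Function.surjInv_eq hs (φ x)))
  have hquot : IsQuotientMap φ := hc.isClosedMap.isQuotientMap hc hs
  have hθc : Continuous θ := by
    rw [hquot.continuous_iff]
    have h1 : θ ∘ φ = c.pr := funext hθ
    rw [h1]
    exact c.pr_cont
  have hθh : IsMHom θ := ⟨fun p q => by
    obtain ⟨x, rfl⟩ := hs p
    obtain ⟨y, rfl⟩ := hs q
    rw [← hφ.map_mul, hθ, hθ, hθ]
    rfl⟩
  have hθs : Function.Surjective θ := fun q => by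
    obtain ⟨x, rfl⟩ := c.pr_surj q
    exact ⟨φ x, hθ x⟩
  let χ : Q → d.Q := fun q => CC.map hle (θ q)
  have hχ : IsMHom χ := ⟨fun p q => by
    change CC.map hle (θ (p * q)) = _
    rw [hθh.map_mul, (CC.map_hom hle).map_mul]⟩
  have hχc : Continuous χ := (CC.map_cont hle).comp hθc
  have hχφ : ∀ x, χ (φ x) = d.pr x := fun x => by
    change CC.map hle (θ (φ x)) = _
    rw [hθ]
    rfl
  have hset : {q | χ q = 1} = φ '' {x | d.r x A.e} := by
    ext q
    obtain ⟨x, rfl⟩ := hs q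
    constructor
    · intro hx
      have h1 : χ (φ x) = 1 := hx
      rw [hχφ] at h1
      exact ⟨x, d.pr_eq.mp h1, rfl⟩
    · rintro ⟨y, hy, hyx⟩
      change χ (φ x) = 1
      rw [← hyx, hχφ]
      exact d.pr_eq.mpr hy
  have hkh : KerHaar χ ν := by
    refine KerHaar.of_map ν ?_ fun n hn => ?_
    · rw [hset]
      exact h0
    · have h1 : n ∈ {q | χ q = 1} := hn
      rw [hset] at h1
      obtain ⟨x, hx, rfl⟩ := h1
      exact hν x hx
  have hM := hasMean_ker_of_kerHaar hχ hχc hkh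
  let _ : MLoop {x : Q // χ x = 1} := kerM hχ
  have _ : TopMLoop {x : Q // χ x = 1} := kerT hχ
  refine ⟨hle, hM.image (fun q => (⟨θ q.1, q.2⟩ : CC.KK hle)) ⟨fun p q => ?_⟩ ?_ ?_⟩
  · exact Subtype.ext (hθh.map_mul p.1 q.1)
  · exact (hθc.comp continuous_subtype_val).subtype_mk _
  · rintro ⟨q, hq⟩
    obtain ⟨p, rfl⟩ := hθs q
    exact ⟨⟨p, hq⟩, rfl⟩

theorem normal_of_cc (A : TopMoufang L) :
    letI : MLoop L := A.toM
    ∀ c : CC L, A.IsNormal Set.univ {x | c.r x A.e} := by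
  let _ : MLoop L := A.toM
  intro c
  have hrdiv : ∀ a b : L, A.rdiv a b = a * b⁻¹ := fun a b => by
    refine MLoop.mul_right_cancel (a := b) ?_
    rw [MLoop.mul_inv_mul]
    exact A.rdiv_mul _ _
  have hldiv : ∀ a b : L, A.ldiv a b = a⁻¹ * b := fun a b => by
    refine MLoop.mul_left_cancel (a := a) ?_
    rw [MLoop.mul_inv_left]
    exact A.mul_ldiv _ _
  have hi1 : (1 : L)⁻¹ = 1 := by
    have h1 := MLoop.mul_inv_self (1 : L)
    rwa [MLoop.one_mul] at h1
  refine ⟨Set.subset_univ _, c.equiv.refl _, ?_, ?_, ?_, ?_, ?_, ?_⟩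
  · intro a ha b hb
    have h1 : c.r (a * b) (1 * 1) := c.mul ha hb
    rw [MLoop.one_mul] at h1
    exact h1
  · intro a ha b hb
    have h1 : c.r (a⁻¹ * b) (1⁻¹ * 1) := c.mul (c.inv ha) hb
    rw [MLoop.inv_mul_self] at h1
    rw [hldiv]
    exact h1
  · intro a ha b hb
    have h1 : c.r (a * b⁻¹) (1 * 1⁻¹) := c.mul ha (c.inv hb)
    rw [MLoop.mul_inv_self] at h1
    rw [hrdiv]
    exact h1
  · intro n hn x _
    have h1 : c.r ((x * n) * x⁻¹) ((x * 1) * x⁻¹) := c.right _ _ _ (c.left x _ _ hn)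
    rw [MLoop.mul_one, MLoop.mul_inv_self] at h1
    rw [hrdiv]
    exact h1
  · intro n hn x _ y _
    have h1 : c.r (((n * x) * y) * (x * y)⁻¹) (((1 * x) * y) * (x * y)⁻¹) :=
      c.right _ _ _ (c.right _ _ _ (c.right _ _ _ hn))
    rw [MLoop.one_mul, MLoop.mul_inv_self] at h1
    rw [hrdiv]
    exact h1
  · intro n hn x _ y _
    have h1 : c.r ((x * y)⁻¹ * (x * (y * n))) ((x * y)⁻¹ * (x * (y * 1))) :=
      c.left _ _ _ (c.left _ _ _ (c.left _ _ _ hn))
    rw [MLoop.mul_one, MLoop.inv_mul_self] at h1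
    rw [hldiv]
    exact h1

theorem cc_of_normal (A : TopMoufang L) {K : Set L} (hK : A.IsNormal Set.univ K)
    (hcl : IsClosed K) :
    letI : MLoop L := A.toM
    ∃ c : CC L, ∀ x, c.r x A.e ↔ x ∈ K := by
  let _ : MLoop L := A.toM
  have _ : TopMLoop L := A.toT
  have hrdiv : ∀ a b : L, A.rdiv a b = a * b⁻¹ := fun a b => by
    refine MLoop.mul_right_cancel (a := b) ?_
    rw [MLoop.mul_inv_mul]
    exact A.rdiv_mul _ _
  refine CC.exists_of_set K hcl hK.one hK.mul (fun a ha => ?_) (fun n hn x => ?_)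
    fun n hn x y => ?_
  · have h1 := hK.rdiv _ hK.one a ha
    rw [hrdiv] at h1
    have h2 : (1 : L) * a⁻¹ ∈ K := h1
    rwa [MLoop.one_mul] at h2
  · have h1 := hK.conj n hn x (Set.mem_univ x)
    rwa [hrdiv] at h1
  · have h1 := hK.innR n hn x (Set.mem_univ x) y (Set.mem_univ y)
    rwa [hrdiv] at h1

end

theorem residual (L : Type u) [TopologicalSpace L] [CompactSpace L] [T2Space L]
    (A : TopMoufang L) :
    ∃ N : Set L, IsClosed N ∧ A.IsNormal Set.univ N ∧ IsConnected N ∧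
      (∀ (Q : Type v) [TopologicalSpace Q] [CompactSpace Q] [T2Space Q] [MeasurableSpace Q]
        [BorelSpace Q] (B : TopMoufang Q) (φ : L → Q), Continuous φ → Function.Surjective φ →
        (∀ x y, φ (A.mul x y) = B.mul (φ x) (φ y)) →
        (B.HasHaar ↔ ∀ n ∈ N, φ n = B.e)) ∧
      ∀ K : Set L, IsClosed K → A.IsNormal Set.univ K → K ⊂ N →
        (∀ V : Set L, IsOpen V → K ⊆ V → ∃ K' : Set L, IsClosed K' ∧
          A.IsNormal Set.univ K' ∧ K ⊂ K' ∧ K' ⊆ N ∩ V) ∧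
        ∃ f : ℚ → Set L, (∀ q, IsClosed (f q) ∧ A.IsNormal Set.univ (f q) ∧ K ⊆ f q ∧
          f q ⊆ N) ∧ ∀ p q, p < q → f p ⊂ f q ∧ ¬ A.FactorHaar (f p) (f q) := by
  let _ : MLoop L := A.toM
  have _ : TopMLoop L := A.toT
  have hclass : ∀ c : CC L, IsClosed {x | c.r x A.e} := fun c => c.coset_closed A.e
  refine ⟨{x | (CC.res L).r x A.e}, hclass _, normal_of_cc A _, CC.res_connected, ?_, ?_⟩
  · intro Q _ _ _ _ _ B φ hc hs hmul
    let _ : MLoop Q := B.toM
    have _ : TopMLoop Q := B.toT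
    have hφ : IsMHom φ := ⟨hmul⟩
    have hquot : IsQuotientMap φ := hc.isClosedMap.isQuotientMap hc hs
    let c : CC L := CC.ker φ hφ hc
    have hcr : ∀ x y, c.r x y ↔ φ x = φ y := fun _ _ => Iff.rfl
    constructor
    · intro hB n hn
      have hQ : HasMean Q := hasInt_iff_hasMean.mp (show HasHaar Q from hB).hasInt
      let θ : Q → c.Q := fun q => c.pr (Function.surjInv hs q)
      have hθ : ∀ x, θ (φ x) = c.pr x := fun x =>
        c.pr_eq.mpr (Function.surjInv_eq hs (φ x))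
      have hθc : Continuous θ := by
        rw [hquot.continuous_iff]
        have h1 : θ ∘ φ = c.pr := funext hθ
        rw [h1]
        exact c.pr_cont
      have hθh : IsMHom θ := ⟨fun p q => by
        obtain ⟨x, rfl⟩ := hs p
        obtain ⟨y, rfl⟩ := hs q
        rw [← hφ.map_mul, hθ, hθ, hθ]
        rfl⟩
      have hθs : Function.Surjective θ := fun q => by
        obtain ⟨x, rfl⟩ := c.pr_surj q
        exact ⟨φ x, hθ x⟩
      have h1 := CC.res_le (hQ.image θ hθh hθc hθs) n 1 hn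
      have h2 : φ n = φ 1 := h1
      rw [hφ.map_one] at h2
      exact h2
    · intro hN
      let θ : (CC.res L).Q → Q := Quotient.lift φ fun x y hxy => by
        have h1 : (CC.res L).r (x * y⁻¹) 1 := ((CC.res L).r_iff x y).mp hxy
        have h2 : φ (x * y⁻¹) = 1 := hN _ h1
        rw [hφ.map_mul, hφ.map_inv] at h2
        refine MLoop.mul_right_cancel (a := (φ y)⁻¹) ?_
        rw [h2, MLoop.mul_inv_self]
      have hθ : ∀ x, θ ((CC.res L).pr x) = φ x := fun _ => rfl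
      have hθc : Continuous θ := by
        rw [(CC.res L).isQuotientMap_pr.continuous_iff]
        exact hc
      have hθh : IsMHom θ := ⟨fun p q => by
        obtain ⟨x, rfl⟩ := (CC.res L).pr_surj p
        obtain ⟨y, rfl⟩ := (CC.res L).pr_surj q
        exact hφ.map_mul x y⟩
      have hθs : Function.Surjective θ := fun q => by
        obtain ⟨x, rfl⟩ := hs q
        exact ⟨(CC.res L).pr x, rfl⟩
      exact (hasInt_iff_hasMean.mpr (CC.hasMean_res.image θ hθh hθc hθs)).hasHaar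
  · intro K hKcl hK hKN
    obtain ⟨c, hc⟩ := cc_of_normal A hK hKcl
    have hle : c ≤ CC.res L := CC.le_iff.mpr fun x hx => hKN.1 ((hc x).mp hx)
    have hnle : ¬ CC.res L ≤ c := fun h => hKN.2 fun x hx => (hc x).mp (h _ _ hx)
    have hKc : K = {x | c.r x A.e} := by
      ext x
      exact (hc x).symm
    -- strict inclusions
    have hss : ∀ d e : CC L, d ≤ e → ¬ e ≤ d → {x | d.r x A.e} ⊂ {x | e.r x A.e} :=
      fun d e h1 h2 => ⟨fun x hx => h1 _ _ hx, fun h3 => h2 (CC.le_iff.mpr fun x hx => h3 hx)⟩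
    refine ⟨fun V hV hKV => ?_, ?_⟩
    · obtain ⟨d, h1, h2, h3, h4⟩ := CC.exists_between (c := c) hle (by
        by_contra hcon
        push Not at hcon
        exact hnle hcon) V hV fun x hx => hKV ((hc x).mp hx)
      refine ⟨{x | d.r x A.e}, hclass d, normal_of_cc A d, ?_, fun x hx => ⟨h3 _ _ hx, h4 x hx⟩⟩
      rw [hKc]
      refine hss c d h1 fun h5 => ?_
      obtain ⟨x, y, h6, h7⟩ := h2
      exact h7 (h5 _ _ h6)
    · obtain ⟨f, hf1, hf2⟩ := CC.exists_rat_chain hle (CC.not_FH_res hnle)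
      refine ⟨fun q => {x | (f q).r x A.e}, fun q => ⟨hclass _, normal_of_cc A _, ?_, ?_⟩,
        fun p q hpq => ⟨?_, ?_⟩⟩
      · rw [hKc]
        exact fun x hx => (hf1 q).1 _ _ hx
      · exact fun x hx => (hf1 q).2 _ _ hx
      · refine hss _ _ (hf2 p q hpq).1 fun h => (hf2 p q hpq).2 ?_
        rw [le_antisymm (hf2 p q hpq).1 h]
        exact CC.FH.refl _
      · exact fun h => (hf2 p q hpq).2 (fh_of_factorHaar A _ _ (hf2 p q hpq).1 h)

end Pool.Agent.MoufangHaar
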